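import Mathlib

/-!
# Matrices over `ℚ_ℓ` which are congruent to one: limits of `(T ^ (ℓ ^ k) - 1) / ℓ ^ k`
-/

set_option autoImplicit false

namespace Pool.Agent.U188.MTQ

open Module Filter Topology

section ultra

variable {ℓ : ℕ} [Fact ℓ.Prime] {n : ℕ}

/-- All entries have norm at most `r`. -/
def Bd (M : Matrix (Fin n) (Fin n) ℚ_[ℓ]) (r : ℝ) : Prop := ∀ i j, ‖M i j‖ ≤ r

theorem Bd.mono {M : Matrix (Fin n) (Fin n) ℚ_[ℓ]} {r r' : ℝ} (h : Bd M r) (hr : r ≤ r') :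
    Bd M r' := fun i j => (h i j).trans hr

theorem Bd.add {M M' : Matrix (Fin n) (Fin n) ℚ_[ℓ]} {r : ℝ} (h : Bd M r) (h' : Bd M' r) :
    Bd (M + M') r := fun i j => (Padic.nonarchimedean _ _).trans (max_le (h i j) (h' i j))

theorem Bd.neg {M : Matrix (Fin n) (Fin n) ℚ_[ℓ]} {r : ℝ} (h : Bd M r) : Bd (-M) r := fun i j => by
  rw [Matrix.neg_apply, norm_neg]
  exact h i j

theorem Bd.sub {M M' : Matrix (Fin n) (Fin n) ℚ_[ℓ]} {r : ℝ} (h : Bd M r) (h' : Bd M' r) :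
    Bd (M - M') r := by
  rw [sub_eq_add_neg]
  exact h.add h'.neg

theorem Bd.mul {M M' : Matrix (Fin n) (Fin n) ℚ_[ℓ]} {r r' : ℝ} (hr : 0 ≤ r) (hr' : 0 ≤ r')
    (h : Bd M r) (h' : Bd M' r') : Bd (M * M') (r * r') := fun i j => by
  rw [Matrix.mul_apply]
  refine IsUltrametricDist.norm_sum_le_of_forall_le_of_nonneg (mul_nonneg hr hr') fun k _ => ?_
  rw [norm_mul]
  exact mul_le_mul (h i k) (h' k j) (norm_nonneg _) hr

theorem Bd.smul {M : Matrix (Fin n) (Fin n) ℚ_[ℓ]} {r : ℝ} (c : ℚ_[ℓ]) (h : Bd M r) :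
    Bd (c • M) (‖c‖ * r) := fun i j => by
  rw [Matrix.smul_apply, smul_eq_mul, norm_mul]
  exact mul_le_mul_of_nonneg_left (h i j) (norm_nonneg _)

theorem bd_one : Bd (1 : Matrix (Fin n) (Fin n) ℚ_[ℓ]) 1 := fun i j => by
  rw [Matrix.one_apply]
  split_ifs
  · simp
  · simp

theorem norm_nat_le_one (m : ℕ) : ‖(m : ℚ_[ℓ])‖ ≤ 1 := by
  have h := Padic.norm_int_le_one (p := ℓ) (m : ℤ)
  simpa using h

/-- The powers of a matrix congruent to one. -/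
theorem bd_pow_sub {T : Matrix (Fin n) (Fin n) ℚ_[ℓ]} {r : ℝ} (hr0 : 0 ≤ r) (hr : r ≤ 1)
    (h : Bd (T - 1) r) (m : ℕ) : Bd (T ^ m - 1) r ∧ Bd (T ^ m - 1 - (m : ℚ_[ℓ]) • (T - 1)) (r * r) := by
  induction m with
  | zero =>
    simp only [pow_zero, sub_self, Nat.cast_zero, zero_smul]
    exact ⟨fun i j => by simpa using hr0, fun i j => by simpa using mul_nonneg hr0 hr0⟩
  | succ m ih =>
    have h2 : Bd (T ^ (m + 1) - 1 - ((m + 1 : ℕ) : ℚ_[ℓ]) • (T - 1)) (r * r) := by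
      have e : T ^ (m + 1) - 1 - ((m + 1 : ℕ) : ℚ_[ℓ]) • (T - 1) =
          (T ^ m - 1 - (m : ℚ_[ℓ]) • (T - 1)) + (T - 1) * (T ^ m - 1) := by
        rw [Nat.cast_add, Nat.cast_one, add_smul, one_smul, pow_succ']
        noncomm_ring
      rw [e]
      exact ih.2.add (Bd.mul hr0 hr0 h ih.1)
    refine ⟨?_, h2⟩
    have e : T ^ (m + 1) - 1 = (T ^ (m + 1) - 1 - ((m + 1 : ℕ) : ℚ_[ℓ]) • (T - 1)) +
        ((m + 1 : ℕ) : ℚ_[ℓ]) • (T - 1) := by abel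
    rw [e]
    refine (h2.mono (mul_le_of_le_one_left hr0 hr)).add ((h.smul _).mono ?_)
    exact mul_le_of_le_one_left hr0 (norm_nat_le_one _)

/-- The `ℓ`-th power. -/
theorem bd_pow_ell {T : Matrix (Fin n) (Fin n) ℚ_[ℓ]} {r : ℝ} (hr0 : 0 ≤ r)
    (hr : r ≤ (ℓ : ℝ)⁻¹) (h : Bd (T - 1) r) : Bd (T ^ ℓ - 1) ((ℓ : ℝ)⁻¹ * r) := by
  have hl : (1 : ℝ) ≤ ℓ := by exact_mod_cast (Fact.out : ℓ.Prime).one_lt.le
  have hr1 : r ≤ 1 := hr.trans (inv_le_one_of_one_le₀ hl)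
  have h2 := (bd_pow_sub hr0 hr1 h ℓ).2
  have e : T ^ ℓ - 1 = (T ^ ℓ - 1 - (ℓ : ℚ_[ℓ]) • (T - 1)) + (ℓ : ℚ_[ℓ]) • (T - 1) := by abel
  rw [e]
  refine (h2.mono (mul_le_mul_of_nonneg_right hr hr0)).add ((h.smul _).mono ?_)
  rw [Padic.norm_p]

/-- The powers of order `ℓ ^ k`. -/
theorem bd_pow_ell_pow {T : Matrix (Fin n) (Fin n) ℚ_[ℓ]} (h : Bd (T - 1) (((ℓ : ℝ)⁻¹) ^ 2))
    (k : ℕ) : Bd (T ^ (ℓ ^ k) - 1) (((ℓ : ℝ)⁻¹) ^ (k + 2)) := by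
  have hl : (1 : ℝ) ≤ ℓ := by exact_mod_cast (Fact.out : ℓ.Prime).one_lt.le
  have hl0 : (0 : ℝ) ≤ (ℓ : ℝ)⁻¹ := by positivity
  have hl1 : (ℓ : ℝ)⁻¹ ≤ 1 := inv_le_one_of_one_le₀ hl
  induction k with
  | zero => simpa using h
  | succ k ih =>
    have h1 := bd_pow_ell (pow_nonneg hl0 _) (pow_le_of_le_one hl0 hl1 (by omega)) ih
    rw [← pow_mul, ← pow_succ] at h1
    have e : ((ℓ : ℝ)⁻¹) ^ (k + 1 + 2) = (ℓ : ℝ)⁻¹ * ((ℓ : ℝ)⁻¹) ^ (k + 2) := by ring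
    rw [e]
    exact h1

/-- The commutators with the powers of `T`. -/
theorem bd_comm_pow {T P : Matrix (Fin n) (Fin n) ℚ_[ℓ]} {r R : ℝ} (hr0 : 0 ≤ r) (hr : r ≤ 1)
    (hR : 0 ≤ R) (h : Bd (T - 1) r) (hC : Bd (T * P - P * T) R) (m : ℕ) :
    Bd (T ^ m * P - P * T ^ m) R ∧
      Bd (T ^ m * P - P * T ^ m - (m : ℚ_[ℓ]) • (T * P - P * T)) (r * R) := by
  induction m with
  | zero =>
    simp only [pow_zero, one_mul, mul_one, sub_self, Nat.cast_zero, zero_smul]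
    exact ⟨fun i j => by simpa using hR, fun i j => by simpa using mul_nonneg hr0 hR⟩
  | succ m ih =>
    have h2 : Bd (T ^ (m + 1) * P - P * T ^ (m + 1) -
        ((m + 1 : ℕ) : ℚ_[ℓ]) • (T * P - P * T)) (r * R) := by
      have e : T ^ (m + 1) * P - P * T ^ (m + 1) - ((m + 1 : ℕ) : ℚ_[ℓ]) • (T * P - P * T) =
          (T ^ m * P - P * T ^ m - (m : ℚ_[ℓ]) • (T * P - P * T)) +
            (T - 1) * (T ^ m * P - P * T ^ m) + (T * P - P * T) * (T ^ m - 1) := by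
        rw [Nat.cast_add, Nat.cast_one, add_smul, one_smul, pow_succ']
        noncomm_ring
      rw [e]
      refine (ih.2.add (Bd.mul hr0 hR h ih.1)).add ?_
      have h3 := Bd.mul hR hr0 hC (bd_pow_sub hr0 hr h m).1
      rwa [mul_comm] at h3
    refine ⟨?_, h2⟩
    have e : T ^ (m + 1) * P - P * T ^ (m + 1) =
        (T ^ (m + 1) * P - P * T ^ (m + 1) - ((m + 1 : ℕ) : ℚ_[ℓ]) • (T * P - P * T)) +
          ((m + 1 : ℕ) : ℚ_[ℓ]) • (T * P - P * T) := by abel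
    rw [e]
    refine (h2.mono (mul_le_of_le_one_left hR hr)).add ((hC.smul _).mono ?_)
    exact mul_le_of_le_one_left hR (norm_nat_le_one _)

/-- The commutator with the `ℓ`-th power. -/
theorem bd_comm_ell {T P : Matrix (Fin n) (Fin n) ℚ_[ℓ]} {r : ℝ} (hr : 0 ≤ r)
    (h : Bd (T - 1) (((ℓ : ℝ)⁻¹) ^ 2)) (hC : Bd (T ^ ℓ * P - P * T ^ ℓ) ((ℓ : ℝ)⁻¹ * r)) :
    Bd (T * P - P * T) r := by
  have hl : (1 : ℝ) < ℓ := by exact_mod_cast (Fact.out : ℓ.Prime).one_lt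
  have hl0 : (0 : ℝ) < (ℓ : ℝ)⁻¹ := by positivity
  have hl1 : (ℓ : ℝ)⁻¹ < 1 := inv_lt_one_of_one_lt₀ hl
  by_contra hne
  unfold Bd at hne
  push Not at hne
  obtain ⟨i₀, j₀, h0⟩ := hne
  obtain ⟨⟨i, j⟩, -, hmax⟩ := Finset.exists_max_image (Finset.univ : Finset (Fin n × Fin n))
    (fun x => ‖(T * P - P * T) x.1 x.2‖) ⟨(i₀, j₀), Finset.mem_univ _⟩
  set R := ‖(T * P - P * T) i j‖ with hR
  have hRr : r < R := h0.trans_le (hmax (i₀, j₀) (Finset.mem_univ _))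
  have hR0 : 0 < R := hr.trans_lt hRr
  have hCR : Bd (T * P - P * T) R := fun a b => hmax (a, b) (Finset.mem_univ _)
  have h2 := (bd_comm_pow (pow_nonneg hl0.le 2) (pow_le_one₀ hl0.le hl1.le) hR0.le h hCR ℓ).2 i j
  have h3 := hC i j
  have e : (ℓ : ℚ_[ℓ]) * (T * P - P * T) i j = (T ^ ℓ * P - P * T ^ ℓ) i j -
      (T ^ ℓ * P - P * T ^ ℓ - (ℓ : ℚ_[ℓ]) • (T * P - P * T)) i j := by
    simp only [Matrix.sub_apply, Matrix.smul_apply, smul_eq_mul]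
    ring
  have h4 : (ℓ : ℝ)⁻¹ * R < (ℓ : ℝ)⁻¹ * R := by
    calc (ℓ : ℝ)⁻¹ * R = ‖(ℓ : ℚ_[ℓ]) * (T * P - P * T) i j‖ := by
          rw [norm_mul, Padic.norm_p]
      _ ≤ max ‖(T ^ ℓ * P - P * T ^ ℓ) i j‖
          ‖(T ^ ℓ * P - P * T ^ ℓ - (ℓ : ℚ_[ℓ]) • (T * P - P * T)) i j‖ := by
          rw [e, sub_eq_add_neg]
          refine (Padic.nonarchimedean _ _).trans ?_
          rw [norm_neg]
      _ < (ℓ : ℝ)⁻¹ * R := by
          refine max_lt (h3.trans_lt (mul_lt_mul_of_pos_left hRr hl0)) (h2.trans_lt ?_)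
          rw [pow_two, mul_assoc]
          exact mul_lt_of_lt_one_left (mul_pos hl0 hR0) hl1
  exact lt_irrefl _ h4

/-- The commutator with the powers of order `ℓ ^ k`. -/
theorem bd_comm_ell_pow {T P : Matrix (Fin n) (Fin n) ℚ_[ℓ]} (k : ℕ) {r : ℝ} (hr : 0 ≤ r)
    (h : Bd (T - 1) (((ℓ : ℝ)⁻¹) ^ 2))
    (hC : Bd (T ^ (ℓ ^ k) * P - P * T ^ (ℓ ^ k)) (((ℓ : ℝ)⁻¹) ^ k * r)) :
    Bd (T * P - P * T) r := by
  have hl : (1 : ℝ) ≤ ℓ := by exact_mod_cast (Fact.out : ℓ.Prime).one_lt.le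
  have hl0 : (0 : ℝ) ≤ (ℓ : ℝ)⁻¹ := by positivity
  have hl1 : (ℓ : ℝ)⁻¹ ≤ 1 := inv_le_one_of_one_le₀ hl
  induction k with
  | zero => simpa using hC
  | succ k ih =>
    apply ih
    have h1 := bd_pow_ell_pow h k
    refine bd_comm_ell (mul_nonneg (pow_nonneg hl0 _) hr) (h1.mono ?_) ?_
    · exact pow_le_pow_of_le_one hl0 hl1 (by omega)
    · rw [← pow_mul, ← pow_succ]
      have e : ((ℓ : ℝ)⁻¹) ^ (k + 1) * r = (ℓ : ℝ)⁻¹ * (((ℓ : ℝ)⁻¹) ^ k * r) := by ring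
      rw [← e]
      exact hC

end ultra

end Pool.Agent.U188.MTQ
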