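import Mathlib
import Pool.Agent.U188.MTQ.Pad

/-!
# The first order term of an invariance property
-/

set_option autoImplicit false

namespace Pool.Agent.U188.MTQ

open Module Filter Topology

section der

variable {K : Type} [NontriviallyNormedField K] {n : ℕ} {κ : Type} [Fintype κ] [DecidableEq κ]

/-- A multilinear form in variables from a space of column vectors is continuous. -/
theorem multilinear_continuous (φ : MultilinearMap K (fun _ : κ => Fin n → K) K) :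
    Continuous φ := by
  have h : ∀ v : κ → Fin n → K, φ v = ∑ r : κ → Fin n,
      (∏ l, v l (r l)) * φ (fun l => Pi.single (r l) 1) := by
    intro v
    have h1 : v = fun l => ∑ j, v l j • (Pi.single j (1 : K) : Fin n → K) := by
      funext l
      exact pi_eq_sum_univ' (v l)
    conv_lhs => rw [h1]
    rw [MultilinearMap.map_sum]
    refine Finset.sum_congr rfl fun r _ => ?_
    rw [MultilinearMap.map_smul_univ, smul_eq_mul]
  have h2 : (φ : (κ → Fin n → K) → K) = fun v => ∑ r : κ → Fin n,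
      (∏ l, v l (r l)) * φ (fun l => Pi.single (r l) 1) := funext h
  rw [h2]
  fun_prop

/-- `((1 + t Y) ^ N - 1) / t` as a polynomial. -/
def qt (N : ℕ) (t : K) (Y : Matrix (Fin n) (Fin n) K) : Matrix (Fin n) (Fin n) K :=
  match N with
  | 0 => 0
  | N + 1 => qt N t Y + Y + t • (qt N t Y * Y)

theorem qt_spec (N : ℕ) (t : K) (Y : Matrix (Fin n) (Fin n) K) :
    (1 + t • Y) ^ N = 1 + t • qt N t Y := by
  induction N with
  | zero => simp [qt]
  | succ N ih =>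
    rw [pow_succ, ih, qt]
    simp only [add_mul, mul_add, one_mul, mul_one, smul_add, smul_mul_assoc, mul_smul_comm]
    abel

theorem qt_zero (N : ℕ) (Y : Matrix (Fin n) (Fin n) K) : qt N 0 Y = (N : K) • Y := by
  induction N with
  | zero => simp [qt]
  | succ N ih => rw [qt, ih, zero_smul, add_zero, Nat.cast_add, Nat.cast_one, add_smul, one_smul]

theorem qt_continuous (N : ℕ) :
    Continuous fun x : K × Matrix (Fin n) (Fin n) K => qt N x.1 x.2 := by
  induction N with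
  | zero => exact continuous_const
  | succ N ih => exact (ih.add continuous_snd).add (continuous_fst.smul (ih.mul continuous_snd))

/-- The same for numbers. -/
def qs (N : ℕ) (t : K) (y : K) : K :=
  match N with
  | 0 => 0
  | N + 1 => qs N t y + y + t * (qs N t y * y)

theorem qs_spec (N : ℕ) (t y : K) : (1 + t * y) ^ N = 1 + t * qs N t y := by
  induction N with
  | zero => simp [qs]
  | succ N ih =>
    rw [pow_succ, ih, qs]
    ring

theorem qs_zero (N : ℕ) (y : K) : qs N 0 y = (N : K) * y := by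
  induction N with
  | zero => simp [qs]
  | succ N ih => rw [qs, ih, Nat.cast_add, Nat.cast_one]; ring

theorem qs_continuous (N : ℕ) : Continuous fun x : K × K => qs N x.1 x.2 := by
  induction N with
  | zero => exact continuous_const
  | succ N ih => exact (ih.add continuous_snd).add (continuous_fst.mul (ih.mul continuous_snd))

/-- The first order term of an invariance property. -/
theorem first_order (φ : MultilinearMap K (fun _ : κ => Fin n → K) K) (N M : ℕ)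
    (t : ℕ → K) (ht0 : ∀ k, t k ≠ 0) (ht : Tendsto t atTop (𝓝 0))
    (Y : ℕ → Matrix (Fin n) (Fin n) K) (y : ℕ → K)
    (Y₀ : Matrix (Fin n) (Fin n) K) (y₀ : K)
    (hY : Tendsto Y atTop (𝓝 Y₀)) (hy : Tendsto y atTop (𝓝 y₀))
    (h : ∀ (k : ℕ) (v : κ → Fin n → K),
      φ (fun l => ((1 + t k • Y k) ^ N).mulVec (v l)) = (1 + t k * y k) ^ M * φ v)
    (v : κ → Fin n → K) :
    (N : K) * ∑ j, φ (Function.update v j (Y₀.mulVec (v j))) = M * y₀ * φ v := by
  let F : ContinuousMultilinearMap K (fun _ : κ => Fin n → K) K :=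
    ⟨φ, multilinear_continuous φ⟩
  have hF : ∀ v, F v = φ v := fun v => rfl
  have hd : HasFDerivAt F (F.linearDeriv v) v := F.hasFDerivAt v
  let w : ℕ → κ → Fin n → K := fun k l => (qt N (t k) (Y k)).mulVec (v l)
  let w₀ : κ → Fin n → K := fun l => ((N : K) • Y₀).mulVec (v l)
  have hq : Tendsto (fun k => qt N (t k) (Y k)) atTop (𝓝 ((N : K) • Y₀)) := by
    rw [← qt_zero]
    exact (((qt_continuous (K := K) (n := n) N).tendsto (0, Y₀)).comp
      (ht.prodMk_nhds hY) : _)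
  have hw : Tendsto w atTop (𝓝 w₀) := by
    rw [tendsto_pi_nhds]
    intro l
    have hc : Continuous fun A : Matrix (Fin n) (Fin n) K => A.mulVec (v l) :=
      continuous_id.matrix_mulVec continuous_const
    exact (hc.tendsto _).comp hq
  have hq2 : Tendsto (fun k => qs M (t k) (y k)) atTop (𝓝 ((M : K) * y₀)) := by
    rw [← qs_zero]
    exact (((qs_continuous (K := K) M).tendsto (0, y₀)).comp (ht.prodMk_nhds hy) : _)
  have hlim : Tendsto (fun k => (t k)⁻¹ • (F (v + t k • w k) - F v)) atTop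
      (𝓝 (F.linearDeriv v w₀)) := by
    have hd' : HasFDerivWithinAt F (F.linearDeriv v) Set.univ v := hd.hasFDerivWithinAt
    refine hd'.lim (d := fun k => t k • w k) ?_ (Eventually.of_forall fun _ => Set.mem_univ _) ?_
    · have h1 := ht.smul hw
      rwa [zero_smul] at h1
    · refine hw.congr fun k => ?_
      rw [smul_smul, inv_mul_cancel₀ (ht0 k), one_smul]
  have hval : ∀ k, (t k)⁻¹ • (F (v + t k • w k) - F v) = qs M (t k) (y k) * φ v := by
    intro k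
    have e1 : v + t k • w k = fun l => ((1 + t k • Y k) ^ N).mulVec (v l) := by
      funext l
      rw [qt_spec, Matrix.add_mulVec, Matrix.one_mulVec, Matrix.smul_mulVec]
      rfl
    rw [e1, hF, hF, h k v, qs_spec, smul_eq_mul]
    have h3 := ht0 k
    field_simp
    ring
  have hlim2 : Tendsto (fun k => (t k)⁻¹ • (F (v + t k • w k) - F v)) atTop
      (𝓝 ((M : K) * y₀ * φ v)) := by
    refine Tendsto.congr (fun k => (hval k).symm) ?_
    exact hq2.mul_const _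
  have h5 := tendsto_nhds_unique hlim hlim2
  rw [ContinuousMultilinearMap.linearDeriv_apply] at h5
  rw [← h5, Finset.mul_sum]
  refine Finset.sum_congr rfl fun j _ => ?_
  have e2 : w₀ j = (N : K) • Y₀.mulVec (v j) := by
    change ((N : K) • Y₀).mulVec (v j) = _
    rw [Matrix.smul_mulVec]
  rw [e2, hF, MultilinearMap.map_update_smul, smul_eq_mul]

end der

section lim

variable {ℓ : ℕ} [Fact ℓ.Prime] {n : ℕ}

/-- Compactness. -/
theorem exists_lim' (Y : ℕ → Fin n → Fin n → ℚ_[ℓ]) (y : ℕ → ℚ_[ℓ])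
    (hY : ∀ k i j, ‖Y k i j‖ ≤ 1) (hy : ∀ k, ‖y k‖ ≤ 1) :
    ∃ (Y₀ : Fin n → Fin n → ℚ_[ℓ]) (y₀ : ℚ_[ℓ]) (f : ℕ → ℕ), StrictMono f ∧
      Tendsto (fun k => Y (f k)) atTop (𝓝 Y₀) ∧ Tendsto (fun k => y (f k)) atTop (𝓝 y₀) := by
  have hb : IsCompact (Metric.closedBall (0 : ℚ_[ℓ]) 1) := isCompact_closedBall 0 1
  have hK : IsCompact (((Set.univ : Set (Fin n)).pi fun _ => (Set.univ : Set (Fin n)).pi fun _ =>
      Metric.closedBall (0 : ℚ_[ℓ]) 1) ×ˢ Metric.closedBall (0 : ℚ_[ℓ]) 1) :=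
    (isCompact_univ_pi fun _ => isCompact_univ_pi fun _ => hb).prod hb
  obtain ⟨⟨Y₀, y₀⟩, -, f, hf, hlim⟩ := hK.tendsto_subseq
    (x := fun k => (Y k, y k))
    (fun k => ⟨fun i _ j _ => by simpa using hY k i j, by simpa using hy k⟩)
  refine ⟨Y₀, y₀, f, hf, ?_, ?_⟩
  · exact (continuous_fst.tendsto _).comp hlim
  · exact (continuous_snd.tendsto _).comp hlim

/-- Compactness. -/
theorem exists_lim (Y : ℕ → Matrix (Fin n) (Fin n) ℚ_[ℓ]) (y : ℕ → ℚ_[ℓ])
    (hY : ∀ k i j, ‖Y k i j‖ ≤ 1) (hy : ∀ k, ‖y k‖ ≤ 1) :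
    ∃ (Y₀ : Matrix (Fin n) (Fin n) ℚ_[ℓ]) (y₀ : ℚ_[ℓ]) (f : ℕ → ℕ), StrictMono f ∧
      Tendsto (fun k => Y (f k)) atTop (𝓝 Y₀) ∧ Tendsto (fun k => y (f k)) atTop (𝓝 y₀) :=
  exists_lim' Y y hY hy

/-- The logarithm of a matrix congruent to one, as a limit, and its properties: a form on which the
powers of `T` act by the powers of `c` is killed to the first order, and what commutes with the
logarithm commutes with `T`. -/
theorem exists_log (T : Matrix (Fin n) (Fin n) ℚ_[ℓ]) (c : ℚ_[ℓ])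
    (hT : Bd (T - 1) (((ℓ : ℝ)⁻¹) ^ 2)) (hc : ‖c - 1‖ ≤ ((ℓ : ℝ)⁻¹) ^ 2) :
    ∃ (Y₀ : Matrix (Fin n) (Fin n) ℚ_[ℓ]) (y₀ : ℚ_[ℓ]),
      (∀ (κ : Type) [Fintype κ] [DecidableEq κ]
        (φ : MultilinearMap ℚ_[ℓ] (fun _ : κ => Fin n → ℚ_[ℓ]) ℚ_[ℓ]) (N M : ℕ), 0 < N →
        (∀ (k : ℕ) (v : κ → Fin n → ℚ_[ℓ]),
          φ (fun l => ((T ^ (ℓ ^ k)) ^ N).mulVec (v l)) = ((c ^ (ℓ ^ k)) ^ N) ^ M * φ v) →
        ∀ v, ∑ j, φ (Function.update v j (Y₀.mulVec (v j))) = M * y₀ * φ v) ∧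
      ∀ P : Matrix (Fin n) (Fin n) ℚ_[ℓ], Y₀ * P = P * Y₀ → T * P = P * T := by
  have hl : (1 : ℝ) < ℓ := by exact_mod_cast (Fact.out : ℓ.Prime).one_lt
  have hl0 : (0 : ℝ) < (ℓ : ℝ)⁻¹ := by positivity
  have hl1 : (ℓ : ℝ)⁻¹ < 1 := inv_lt_one_of_one_lt₀ hl
  have hp0 : (ℓ : ℚ_[ℓ]) ≠ 0 := by exact_mod_cast (Fact.out : ℓ.Prime).ne_zero
  let Y : ℕ → Matrix (Fin n) (Fin n) ℚ_[ℓ] := fun k => ((ℓ : ℚ_[ℓ]) ^ k)⁻¹ • (T ^ (ℓ ^ k) - 1)
  let y : ℕ → ℚ_[ℓ] := fun k => ((ℓ : ℚ_[ℓ]) ^ k)⁻¹ * (c ^ (ℓ ^ k) - 1)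
  have hYe : ∀ k, T ^ (ℓ ^ k) = 1 + ((ℓ : ℚ_[ℓ]) ^ k) • Y k := by
    intro k
    change _ = 1 + ((ℓ : ℚ_[ℓ]) ^ k) • (((ℓ : ℚ_[ℓ]) ^ k)⁻¹ • (T ^ (ℓ ^ k) - 1))
    rw [smul_smul, mul_inv_cancel₀ (pow_ne_zero _ hp0), one_smul]
    abel
  have hye : ∀ k, c ^ (ℓ ^ k) = 1 + ((ℓ : ℚ_[ℓ]) ^ k) * y k := by
    intro k
    change _ = 1 + ((ℓ : ℚ_[ℓ]) ^ k) * (((ℓ : ℚ_[ℓ]) ^ k)⁻¹ * (c ^ (ℓ ^ k) - 1))
    rw [← mul_assoc, mul_inv_cancel₀ (pow_ne_zero _ hp0), one_mul]
    ring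
  have hYb : ∀ k i j, ‖Y k i j‖ ≤ 1 := by
    intro k i j
    have h1 := bd_pow_ell_pow hT k i j
    change ‖((ℓ : ℚ_[ℓ]) ^ k)⁻¹ * (T ^ (ℓ ^ k) - 1) i j‖ ≤ 1
    rw [norm_mul, norm_inv, norm_pow, Padic.norm_p, inv_pow, inv_inv]
    calc (ℓ : ℝ) ^ k * ‖(T ^ (ℓ ^ k) - 1) i j‖ ≤ (ℓ : ℝ) ^ k * ((ℓ : ℝ)⁻¹) ^ (k + 2) :=
          mul_le_mul_of_nonneg_left h1 (by positivity)
      _ = ((ℓ : ℝ)⁻¹) ^ 2 := by
          rw [pow_add, ← mul_assoc, ← mul_pow, mul_inv_cancel₀ (by positivity), one_pow, one_mul]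
      _ ≤ 1 := pow_le_one₀ hl0.le hl1.le
  have hyb : ∀ k, ‖y k‖ ≤ 1 := by
    intro k
    have h0 : Bd ((Matrix.of fun _ _ : Fin 1 => c) - 1) (((ℓ : ℝ)⁻¹) ^ 2) := by
      intro i j
      have hi : i = 0 := Subsingleton.elim _ _
      have hj : j = 0 := Subsingleton.elim _ _
      subst hi hj
      simpa using hc
    have h1 := bd_pow_ell_pow h0 k 0 0
    have e : ∀ m : ℕ, (Matrix.of fun _ _ : Fin 1 => c) ^ m = Matrix.of fun _ _ : Fin 1 => c ^ m := by
      intro m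
      induction m with
      | zero =>
        ext i j
        have hi : i = 0 := Subsingleton.elim _ _
        have hj : j = 0 := Subsingleton.elim _ _
        subst hi hj
        simp
      | succ m ih =>
        rw [pow_succ, ih]
        ext i j
        simp [Matrix.mul_apply, pow_succ]
    rw [e, Matrix.sub_apply, Matrix.of_apply, Matrix.one_apply_eq] at h1
    change ‖((ℓ : ℚ_[ℓ]) ^ k)⁻¹ * (c ^ (ℓ ^ k) - 1)‖ ≤ 1
    rw [norm_mul, norm_inv, norm_pow, Padic.norm_p, inv_pow, inv_inv]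
    calc (ℓ : ℝ) ^ k * ‖c ^ (ℓ ^ k) - 1‖ ≤ (ℓ : ℝ) ^ k * ((ℓ : ℝ)⁻¹) ^ (k + 2) :=
          mul_le_mul_of_nonneg_left h1 (by positivity)
      _ = ((ℓ : ℝ)⁻¹) ^ 2 := by
          rw [pow_add, ← mul_assoc, ← mul_pow, mul_inv_cancel₀ (by positivity), one_pow, one_mul]
      _ ≤ 1 := pow_le_one₀ hl0.le hl1.le
  obtain ⟨Y₀, y₀, f, hf, h1, h2⟩ := exists_lim Y y hYb hyb
  refine ⟨Y₀, y₀, ?_, ?_⟩
  · intro κ _ _ φ N M hN h v
    have ht : Tendsto (fun k => (ℓ : ℚ_[ℓ]) ^ (f k)) atTop (𝓝 0) := by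
      have h3 : Tendsto (fun k => (ℓ : ℚ_[ℓ]) ^ k) atTop (𝓝 0) :=
        tendsto_pow_atTop_nhds_zero_of_norm_lt_one (by rw [Padic.norm_p]; exact hl1)
      exact h3.comp hf.tendsto_atTop
    have h4 := first_order φ N (N * M) (fun k => (ℓ : ℚ_[ℓ]) ^ (f k))
      (fun k => pow_ne_zero _ hp0) ht (fun k => Y (f k)) (fun k => y (f k)) Y₀ y₀ h1 h2
      (fun k v => by
        rw [← hYe, ← hye, pow_mul]
        exact h (f k) v) v
    have hN0 : (N : ℚ_[ℓ]) ≠ 0 := by exact_mod_cast hN.ne'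
    apply mul_left_cancel₀ hN0
    rw [h4]
    push_cast
    ring
  · intro P hP
    have h3 : Tendsto (fun k => Y (f k) * P - P * Y (f k)) atTop (𝓝 0) := by
      have h4 : Tendsto (fun k => Y (f k) * P - P * Y (f k)) atTop (𝓝 (Y₀ * P - P * Y₀)) := by
        have hc : Continuous fun A : Matrix (Fin n) (Fin n) ℚ_[ℓ] => A * P - P * A := by fun_prop
        exact (hc.tendsto _).comp h1
      rwa [hP, sub_self] at h4
    -- each entry of the commutator of `T` is at most `ε`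
    have h5 : ∀ ε : ℝ, 0 < ε → Bd (T * P - P * T) ε := by
      intro ε hε
      have h6 : ∀ᶠ k in atTop, ∀ i j, ‖(Y (f k) * P - P * Y (f k)) i j‖ < ε := by
        rw [eventually_all]
        intro i
        rw [eventually_all]
        intro j
        have hc : Continuous fun A : Matrix (Fin n) (Fin n) ℚ_[ℓ] => ‖A i j‖ := by fun_prop
        have h7 := (hc.tendsto _).comp h3
        simp only [Matrix.zero_apply, norm_zero] at h7
        exact h7.eventually (gt_mem_nhds hε)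
      obtain ⟨k, hk⟩ := h6.exists
      refine bd_comm_ell_pow (f k) hε.le hT fun i j => ?_
      have e : T ^ (ℓ ^ f k) * P - P * T ^ (ℓ ^ f k) =
          ((ℓ : ℚ_[ℓ]) ^ f k) • (Y (f k) * P - P * Y (f k)) := by
        rw [hYe (f k)]
        simp only [add_mul, mul_add, one_mul, mul_one, smul_mul_assoc, mul_smul_comm, smul_sub]
        abel
      rw [e, Matrix.smul_apply, smul_eq_mul, norm_mul, norm_pow, Padic.norm_p]
      exact mul_le_mul_of_nonneg_left (hk i j).le (by positivity)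
    rw [← sub_eq_zero]
    ext i j
    rw [Matrix.zero_apply]
    apply norm_le_zero_iff.1
    refine le_of_forall_pos_le_add fun ε hε => ?_
    rw [zero_add]
    exact h5 ε hε i j

end lim

end Pool.Agent.U188.MTQ
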