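import Mathlib
import Pool.Agent.U188.MTQ.Lim
import Pool.Agent.H204R3.SP.Lie

/-!
# The commutant of the Lie algebra of the Tate classes
-/

set_option autoImplicit false

namespace Pool.Agent.U188.MTQ

open Module Filter Topology Pool.Agent.H204R3.SP

section rep

variable {ℓ : ℕ} [Fact ℓ.Prime] {n : ℕ} {V : Type} [AddCommGroup V] [Module ℚ_[ℓ] V]
  {Γ : Type} [Group Γ] (ρ : Representation ℚ_[ℓ] Γ V) (χ : Γ →* ℚ_[ℓ])
  (b : Basis (Fin n) ℚ_[ℓ] V)

theorem mulVec_pow (s : Γ) (k : ℕ) (v : Fin n → ℚ_[ℓ]) :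
    ((LinearMap.toMatrix b b (ρ s)) ^ k).mulVec v = b.equivFun (ρ (s ^ k) (b.equivFun.symm v)) := by
  have h1 : (LinearMap.toMatrix b b (ρ s)) ^ k = LinearMap.toMatrix b b (ρ (s ^ k)) := by
    rw [map_pow, LinearMap.toMatrix_pow]
  rw [h1]
  have h2 := LinearMap.toMatrix_mulVec_repr b b (ρ (s ^ k)) (b.equivFun.symm v)
  have h3 : (⇑(b.repr (b.equivFun.symm v)) : Fin n → ℚ_[ℓ]) = v := by
    have h4 := b.equivFun.apply_symm_apply v
    rw [Basis.equivFun_apply] at h4
    exact h4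
  rw [h3] at h2
  rw [h2, Basis.equivFun_apply]

/-- What commutes with the Lie algebra of the Tate classes commutes with the elements congruent to
one. -/
theorem comm_near (s : Γ) (hs : Bd (LinearMap.toMatrix b b (ρ s) - 1) (((ℓ : ℝ)⁻¹) ^ 2))
    (hc : ‖χ s - 1‖ ≤ ((ℓ : ℝ)⁻¹) ^ 2) (P : Module.End ℚ_[ℓ] V)
    (hP : ∀ X ∈ lieT ρ χ, X * P = P * X) : ρ s * P = P * ρ s := by
  classical
  obtain ⟨Y₀, y₀, h1, h2⟩ := exists_log (LinearMap.toMatrix b b (ρ s)) (χ s) hs hc
  have hX : Matrix.toLin b b Y₀ - (y₀ / 2) • (1 : Module.End ℚ_[ℓ] V) ∈ lieT ρ χ := by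
    intro m φ hφ u
    obtain ⟨Δ, hΔ, h3⟩ := hφ
    obtain ⟨N, hN, -, hsN⟩ := Subgroup.exists_pow_mem_of_index_ne_zero hΔ.index_ne_zero s
    have h4 := h1 (Fin m × Fin 2) (φ.compLinearMap fun _ => b.equivFun.symm.toLinearMap) N m hN
      (fun k v => by
        have h5 : (s ^ (ℓ ^ k)) ^ N ∈ Δ := by
          rw [← pow_mul, mul_comm, pow_mul]
          exact Δ.pow_mem hsN _
        have h6 := h3 _ h5 (fun l => b.equivFun.symm (v l))
        rw [MultilinearMap.compLinearMap_apply, MultilinearMap.compLinearMap_apply]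
        simp only [LinearEquiv.coe_coe]
        rw [← map_pow χ, ← map_pow χ, ← h6]
        congr 1
        funext l
        rw [← pow_mul, mulVec_pow, LinearEquiv.symm_apply_apply, pow_mul])
      (fun l => b.equivFun (u l))
    have e1 : ∀ j, φ.compLinearMap (fun _ => b.equivFun.symm.toLinearMap)
        (Function.update (fun l => b.equivFun (u l)) j (Y₀.mulVec (b.equivFun (u j)))) =
          φ (Function.update u j (Matrix.toLin b b Y₀ (u j))) := by
      intro j
      rw [MultilinearMap.compLinearMap_apply]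
      congr 1
      funext l
      by_cases hl : l = j
      · subst hl
        rw [Function.update_self, Function.update_self, Matrix.toLin_apply]
        rw [LinearEquiv.coe_coe, Basis.equivFun_symm_apply]
        rfl
      · rw [Function.update_of_ne hl, Function.update_of_ne hl, LinearEquiv.coe_coe,
          LinearEquiv.symm_apply_apply]
    have e2 : φ.compLinearMap (fun _ => b.equivFun.symm.toLinearMap)
        (fun l => b.equivFun (u l)) = φ u := by
      rw [MultilinearMap.compLinearMap_apply]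
      congr 1
      funext l
      rw [LinearEquiv.coe_coe, LinearEquiv.symm_apply_apply]
    rw [Finset.sum_congr rfl fun j _ => e1 j, e2] at h4
    have e3 : ∀ j, φ (Function.update u j ((Matrix.toLin b b Y₀ -
        (y₀ / 2) • (1 : Module.End ℚ_[ℓ] V)) (u j))) =
          φ (Function.update u j (Matrix.toLin b b Y₀ (u j))) - (y₀ / 2) * φ u := by
      intro j
      rw [LinearMap.sub_apply, LinearMap.smul_apply, Module.End.one_apply,
        MultilinearMap.map_update_sub, MultilinearMap.map_update_smul, Function.update_eq_self,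
        smul_eq_mul]
    rw [Finset.sum_congr rfl fun j _ => e3 j, Finset.sum_sub_distrib, h4, Finset.sum_const,
      Finset.card_univ, Fintype.card_prod, Fintype.card_fin, Fintype.card_fin, nsmul_eq_mul]
    push_cast
    ring
  have h3 := hP _ hX
  have h4 : Matrix.toLin b b Y₀ * P = P * Matrix.toLin b b Y₀ := by
    rw [sub_mul, mul_sub, smul_mul_assoc, one_mul, mul_smul_comm, mul_one] at h3
    exact sub_left_injective h3
  have h5 : Y₀ * LinearMap.toMatrix b b P = LinearMap.toMatrix b b P * Y₀ := by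
    have h6 := congrArg (LinearMap.toMatrix b b) h4
    rw [LinearMap.toMatrix_mul, LinearMap.toMatrix_mul, LinearMap.toMatrix_toLin] at h6
    exact h6
  have h6 := h2 _ h5
  apply (LinearMap.toMatrix b b).injective
  rw [LinearMap.toMatrix_mul, LinearMap.toMatrix_mul]
  exact h6

/-- An open subgroup on which the representation is congruent to one. -/
theorem exists_near [TopologicalSpace Γ] [IsTopologicalGroup Γ] [CompactSpace Γ]
    (hρ : ∀ (f : V →ₗ[ℚ_[ℓ]] ℚ_[ℓ]) (v : V), Continuous fun s => f (ρ s v))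
    (hχ : Continuous χ) : ∃ Δ : Subgroup Γ, Δ.FiniteIndex ∧ ∀ s ∈ Δ,
      Bd (LinearMap.toMatrix b b (ρ s) - 1) (((ℓ : ℝ)⁻¹) ^ 2) ∧ ‖χ s - 1‖ ≤ ((ℓ : ℝ)⁻¹) ^ 2 := by
  have hl : (1 : ℝ) < ℓ := by exact_mod_cast (Fact.out : ℓ.Prime).one_lt
  have hl0 : (0 : ℝ) < (ℓ : ℝ)⁻¹ := by positivity
  have hl1 : (ℓ : ℝ)⁻¹ < 1 := inv_lt_one_of_one_lt₀ hl
  set r : ℝ := ((ℓ : ℝ)⁻¹) ^ 2 with hr
  have hr0 : 0 < r := by positivity
  have hr1 : r ≤ 1 := pow_le_one₀ hl0.le hl1.le
  have hmulM : ∀ s t : Γ, Bd (LinearMap.toMatrix b b (ρ s) - 1) r →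
      Bd (LinearMap.toMatrix b b (ρ t) - 1) r → Bd (LinearMap.toMatrix b b (ρ (s * t)) - 1) r := by
    intro s t h1 h2
    have e : LinearMap.toMatrix b b (ρ (s * t)) - 1 =
        (LinearMap.toMatrix b b (ρ s) - 1) * (LinearMap.toMatrix b b (ρ t) - 1) +
          (LinearMap.toMatrix b b (ρ s) - 1) + (LinearMap.toMatrix b b (ρ t) - 1) := by
      rw [map_mul, LinearMap.toMatrix_mul]
      noncomm_ring
    rw [e]
    exact (((Bd.mul hr0.le hr0.le h1 h2).mono (mul_le_of_le_one_left hr0.le hr1)).add h1).add h2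
  have hmulc : ∀ s t : Γ, ‖χ s - 1‖ ≤ r → ‖χ t - 1‖ ≤ r → ‖χ (s * t) - 1‖ ≤ r := by
    intro s t h1 h2
    have e : χ (s * t) - 1 = ((χ s - 1) * (χ t - 1) + (χ s - 1)) + (χ t - 1) := by
      rw [map_mul]
      ring
    rw [e]
    refine (Padic.nonarchimedean _ _).trans (max_le ((Padic.nonarchimedean _ _).trans
      (max_le ?_ h1)) h2)
    rw [norm_mul]
    exact (mul_le_mul h1 h2 (norm_nonneg _) hr0.le).trans (mul_le_of_le_one_left hr0.le hr1)
  let Δ : Subgroup Γ :=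
    { carrier := {s | (Bd (LinearMap.toMatrix b b (ρ s) - 1) r ∧ ‖χ s - 1‖ ≤ r) ∧
        (Bd (LinearMap.toMatrix b b (ρ s⁻¹) - 1) r ∧ ‖χ s⁻¹ - 1‖ ≤ r)}
      one_mem' := by
        have h0 : Bd (LinearMap.toMatrix b b (ρ 1) - 1) r := by
          intro i j
          rw [map_one, LinearMap.toMatrix_one, sub_self, Matrix.zero_apply, norm_zero]
          exact hr0.le
        have h1 : ‖χ 1 - 1‖ ≤ r := by
          rw [map_one, sub_self, norm_zero]
          exact hr0.le
        refine ⟨⟨h0, h1⟩, ?_⟩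
        rw [inv_one]
        exact ⟨h0, h1⟩
      mul_mem' := by
        rintro s t ⟨⟨h1, h2⟩, h3, h4⟩ ⟨⟨h5, h6⟩, h7, h8⟩
        refine ⟨⟨hmulM s t h1 h5, hmulc s t h2 h6⟩, ?_⟩
        rw [mul_inv_rev]
        exact ⟨hmulM _ _ h7 h3, hmulc _ _ h8 h4⟩
      inv_mem' := by
        rintro s ⟨h1, h2⟩
        refine ⟨h2, ?_⟩
        rw [inv_inv]
        exact h1 }
  have hnb : {s : Γ | Bd (LinearMap.toMatrix b b (ρ s) - 1) r ∧ ‖χ s - 1‖ ≤ r} ∈ 𝓝 (1 : Γ) := by
    have h1 : ∀ i j, ∀ᶠ s in 𝓝 (1 : Γ), ‖(LinearMap.toMatrix b b (ρ s) - 1) i j‖ ≤ r := by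
      intro i j
      have hc : Continuous fun s : Γ => ‖(LinearMap.toMatrix b b (ρ s) - 1) i j‖ := by
        have e : ∀ s : Γ, (LinearMap.toMatrix b b (ρ s) - 1) i j =
            b.coord i (ρ s (b j)) - (1 : Matrix (Fin n) (Fin n) ℚ_[ℓ]) i j := by
          intro s
          rw [Matrix.sub_apply, LinearMap.toMatrix_apply, Basis.coord_apply]
        simp only [e]
        exact ((hρ (b.coord i) (b j)).sub continuous_const).norm
      have h2 := hc.tendsto 1
      have h3 : ‖(LinearMap.toMatrix b b (ρ 1) - 1) i j‖ = 0 := by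
        rw [map_one, LinearMap.toMatrix_one, sub_self, Matrix.zero_apply, norm_zero]
      rw [h3] at h2
      exact (h2.eventually (gt_mem_nhds hr0)).mono fun s hs => le_of_lt hs
    have h2 : ∀ᶠ s in 𝓝 (1 : Γ), ‖χ s - 1‖ ≤ r := by
      have hc : Continuous fun s : Γ => ‖χ s - 1‖ := (hχ.sub continuous_const).norm
      have h2 := hc.tendsto 1
      have h3 : ‖χ (1 : Γ) - 1‖ = 0 := by
        rw [map_one, sub_self, norm_zero]
      rw [h3] at h2
      exact (h2.eventually (gt_mem_nhds hr0)).mono fun s hs => le_of_lt hs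
    have h3 : ∀ᶠ s in 𝓝 (1 : Γ), ∀ i j, ‖(LinearMap.toMatrix b b (ρ s) - 1) i j‖ ≤ r := by
      rw [eventually_all]
      intro i
      rw [eventually_all]
      exact h1 i
    exact h3.and h2
  have hopen : IsOpen (Δ : Set Γ) := by
    apply Δ.isOpen_of_mem_nhds (g := 1)
    have h1 : {s : Γ | Bd (LinearMap.toMatrix b b (ρ s⁻¹) - 1) r ∧ ‖χ s⁻¹ - 1‖ ≤ r} ∈
        𝓝 (1 : Γ) := by
      have h2 : Tendsto (fun s : Γ => s⁻¹) (𝓝 1) (𝓝 1) := by
        have h3 := (continuous_inv (G := Γ)).tendsto 1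
        rwa [inv_one] at h3
      exact h2 hnb
    exact Filter.inter_mem hnb h1
  have hfin : Finite (Γ ⧸ Δ) := Δ.quotient_finite_of_isOpen hopen
  refine ⟨Δ, Subgroup.finiteIndex_of_finite_quotient, fun s hs => hs.1⟩

/-- What commutes with the Lie algebra of the Tate classes commutes with an open subgroup. -/
theorem comm_of_lieT [FiniteDimensional ℚ_[ℓ] V] [TopologicalSpace Γ] [IsTopologicalGroup Γ]
    [CompactSpace Γ]
    (hρ : ∀ (f : V →ₗ[ℚ_[ℓ]] ℚ_[ℓ]) (v : V), Continuous fun s => f (ρ s v))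
    (hχ : Continuous χ) :
    ∃ Δ : Subgroup Γ, Δ.FiniteIndex ∧ ∀ P : Module.End ℚ_[ℓ] V,
      (∀ X ∈ lieT ρ χ, X * P = P * X) → ∀ s ∈ Δ, ∀ v, P (ρ s v) = ρ s (P v) := by
  obtain ⟨Δ, h1, h2⟩ := exists_near ρ χ (finBasis ℚ_[ℓ] V) hρ hχ
  refine ⟨Δ, h1, fun P hP s hs v => ?_⟩
  have h3 := comm_near ρ χ (finBasis ℚ_[ℓ] V) s (h2 s hs).1 (h2 s hs).2 P hP
  exact (congrArg (fun f : Module.End ℚ_[ℓ] V => f v) h3).symm

end rep

end Pool.Agent.U188.MTQ
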