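import Mathlib
import Pool.Agent.W516.MT.Stmt

/-!
# The positivity of the Rosati involution
-/

set_option autoImplicit false

namespace Pool.Agent.U188.MTQ

open Module

/-- The trace form on the skew endomorphisms that commute with the complex structure is negative
definite. -/
theorem ros : Pool.Agent.W516.MTS.S_ROS := by
  classical
  intro W T _ _ _ _ _ per n b b' hb ω₀ E hE hI halt hpos P P' hP' hskew htr
  have hsk : ∀ u v, E u v = -E v u := by
    intro u v
    have h1 := halt (u + v)
    simp only [map_add, LinearMap.add_apply, halt, zero_add, add_zero] at h1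
    linarith
  have hE' : ∀ u v, E (P' u) v + E u (P' v) = 0 := by
    have h1 : ∀ i j, E (P' (b' i)) (b' j) + E (b' i) (P' (b' j)) = 0 := by
      intro i j
      rw [hb, hb, hP', hP', hE, hE, ← Rat.cast_add, hskew, Rat.cast_zero]
    have h2 : (E.comp (P'.restrictScalars ℝ)) + (E.compl₂ (P'.restrictScalars ℝ)) = 0 := by
      refine b'.ext fun i => b'.ext fun j => ?_
      exact h1 i j
    intro u v
    exact congrArg (fun f : T →ₗ[ℝ] T →ₗ[ℝ] ℝ => f u v) h2
  let core : InnerProductSpace.Core ℝ T :=
    { inner := fun u v => E (Complex.I • u) v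
      conj_inner_symm := by
        intro x y
        change E (Complex.I • y) x = E (Complex.I • x) y
        rw [← hI (Complex.I • y) x, smul_smul, Complex.I_mul_I, neg_smul, one_smul, map_neg,
          LinearMap.neg_apply, hsk y, neg_neg]
      re_inner_nonneg := by
        intro x
        change 0 ≤ E (Complex.I • x) x
        by_cases hx : x = 0
        · rw [hx, map_zero]
        · exact (hpos x hx).le
      add_left := by
        intro x y z
        change E (Complex.I • (x + y)) z = E (Complex.I • x) z + E (Complex.I • y) z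
        rw [smul_add, map_add, LinearMap.add_apply]
      smul_left := by
        intro x y r
        change E (Complex.I • r • x) y = r * E (Complex.I • x) y
        rw [smul_comm, map_smul, LinearMap.smul_apply, smul_eq_mul]
      definite := by
        intro x hx
        by_contra hne
        exact (hpos x hne).ne' hx }
  letI i1 : NormedAddCommGroup T := core.toNormedAddCommGroup
  letI i2 : InnerProductSpace ℝ T := InnerProductSpace.ofCore core.toCore
  have hfin : FiniteDimensional ℝ T := b'.finiteDimensional_of_finite
  let e := stdOrthonormalBasis ℝ T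
  have hin : ∀ u v : T, inner ℝ u v = E (Complex.I • u) v := fun u v => rfl
  have h3 := LinearMap.trace_eq_sum_inner ((P'.restrictScalars ℝ) ∘ₗ (P'.restrictScalars ℝ)) e
  have h4 : ∀ u : T, inner ℝ u (P' (P' u)) = -inner ℝ (P' u) (P' u) := by
    intro u
    rw [hin, hin, ← map_smul]
    have h5 := hE' (Complex.I • u) (P' u)
    linarith
  have h5 : LinearMap.trace ℝ T ((P'.restrictScalars ℝ) ∘ₗ (P'.restrictScalars ℝ)) = 0 := by
    rw [LinearMap.trace_eq_matrix_trace ℝ b', Matrix.trace]
    rw [LinearMap.trace_eq_matrix_trace ℚ b, Matrix.trace] at htr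
    have h6 : ∀ i, (LinearMap.toMatrix b' b' ((P'.restrictScalars ℝ) ∘ₗ
        (P'.restrictScalars ℝ))).diag i =
          (((LinearMap.toMatrix b b (P ∘ₗ P)).diag i : ℚ) : ℝ) := by
      intro i
      rw [Matrix.diag_apply, Matrix.diag_apply, LinearMap.toMatrix_apply, LinearMap.toMatrix_apply,
        LinearMap.comp_apply, LinearMap.comp_apply]
      change b'.repr (P' (P' (b' i))) i = _
      rw [hb, hP', hP']
      have h7 : per (P (P (b i))) = ∑ j, ((b.repr (P (P (b i))) j : ℚ) : ℝ) • b' j := by
        conv_lhs => rw [← b.sum_repr (P (P (b i))), map_sum]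
        refine Finset.sum_congr rfl fun j _ => ?_
        rw [hb]
        exact map_ratCast_smul per ℚ ℝ (b.repr (P (P (b i))) j) (b j)
      rw [h7, b'.repr_sum_self]
    rw [Finset.sum_congr rfl fun i _ => h6 i, ← Rat.cast_sum, htr, Rat.cast_zero]
  rw [h5] at h3
  have h6 : ∀ i, P' (e i) = 0 := by
    have h7 : ∑ i, inner ℝ (P' (e i)) (P' (e i)) = 0 := by
      have h8 : ∑ i, inner ℝ (e i) (((P'.restrictScalars ℝ) ∘ₗ (P'.restrictScalars ℝ)) (e i)) =
          -∑ i, inner ℝ (P' (e i)) (P' (e i)) := by
        rw [← Finset.sum_neg_distrib]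
        exact Finset.sum_congr rfl fun i _ => h4 (e i)
      rw [h8] at h3
      linarith
    intro i
    have h9 := (Finset.sum_eq_zero_iff_of_nonneg fun i _ => real_inner_self_nonneg).1 h7 i
      (Finset.mem_univ _)
    exact inner_self_eq_zero.1 h9
  have h7 : P'.restrictScalars ℝ = 0 := e.toBasis.ext fun i => by
    rw [OrthonormalBasis.coe_toBasis]
    exact h6 i
  have h8 : ∀ w, per (P w) = 0 := by
    intro w
    rw [← hP']
    exact congrArg (fun f : T →ₗ[ℝ] T => f (per w)) h7
  have h9 : ∀ w, per w = 0 → w = 0 := by
    intro w hw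
    have h10 : per w = ∑ j, ((b.repr w j : ℚ) : ℝ) • b' j := by
      conv_lhs => rw [← b.sum_repr w, map_sum]
      refine Finset.sum_congr rfl fun j _ => ?_
      rw [hb]
      exact map_ratCast_smul per ℚ ℝ (b.repr w j) (b j)
    rw [hw] at h10
    apply b.repr.injective
    ext j
    have h11 := (Fintype.linearIndependent_iff.1 b'.linearIndependent) _ h10.symm j
    rw [map_zero, Finsupp.zero_apply]
    exact_mod_cast h11
  exact LinearMap.ext fun w => h9 _ (h8 w)

end Pool.Agent.U188.MTQ
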