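import Mathlib

/-!
# A Lie algebra of endomorphisms which is normalized by a semisimple group of automorphisms
-/

set_option autoImplicit false

namespace Pool.Agent.U188.MTQ

open Module

section semi

variable {k V Γ : Type} [Field k] [AddCommGroup V] [Module k V] [Group Γ]
  (ρ : Representation k Γ V) (𝔥 : Submodule k (Module.End k V))

/-- The associative algebra generated by `𝔥`. -/
abbrev AA : Subalgebra k (Module.End k V) := Algebra.adjoin k (𝔥 : Set (Module.End k V))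

/-- A subspace stable under `𝔥` is a submodule over the algebra. -/
def toA (U : Submodule k V) (hU : ∀ X ∈ 𝔥, ∀ u ∈ U, X u ∈ U) : Submodule (AA 𝔥) V where
  carrier := U
  zero_mem' := U.zero_mem
  add_mem' := U.add_mem
  smul_mem' := by
    rintro ⟨a, ha⟩ u hu
    change a u ∈ U
    have h : ∀ a ∈ AA 𝔥, ∀ u ∈ U, a u ∈ U := by
      intro a ha
      induction ha using Algebra.adjoin_induction with
      | mem x hx => exact fun u hu => hU x hx u hu
      | algebraMap r =>
        intro u hu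
        rw [Module.algebraMap_end_apply]
        exact U.smul_mem r hu
      | add x y _ _ hx hy => exact fun u hu => U.add_mem (hx u hu) (hy u hu)
      | mul x y _ _ hx hy => exact fun u hu => hx _ (hy u hu)
    exact h a ha u hu

theorem mem_toA {U : Submodule k V} {hU : ∀ X ∈ 𝔥, ∀ u ∈ U, X u ∈ U} {u : V} :
    u ∈ toA 𝔥 U hU ↔ u ∈ U := Iff.rfl

theorem smul_mem_A (S : Submodule (AA 𝔥) V) {X : Module.End k V} (hX : X ∈ 𝔥) {u : V} (hu : u ∈ S) :
    X u ∈ S := S.smul_mem ⟨X, Algebra.subset_adjoin hX⟩ hu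

theorem ksmul_mem_A (S : Submodule (AA 𝔥) V) (c : k) {u : V} (hu : u ∈ S) : c • u ∈ S := by
  have h := S.smul_mem (algebraMap k (AA 𝔥) c) hu
  have e : (algebraMap k (AA 𝔥) c) • u = c • u := by
    rw [Subalgebra.smul_def]
    rfl
  rwa [e] at h

/-- The subspace given by a submodule over the algebra. -/
def ofA (S : Submodule (AA 𝔥) V) : Submodule k V where
  carrier := S
  zero_mem' := S.zero_mem
  add_mem' := S.add_mem
  smul_mem' := fun c _ hu => ksmul_mem_A 𝔥 S c hu

variable (hconj : ∀ (s : Γ), ∀ X ∈ 𝔥, ρ s * X * ρ s⁻¹ ∈ 𝔥)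

/-- The image of a submodule under an element of the group. -/
def img (s : Γ) (S : Submodule (AA 𝔥) V) : Submodule (AA 𝔥) V :=
  toA 𝔥 ((ofA 𝔥 S).map (ρ s)) (by
    rintro X hX _ ⟨u, hu, rfl⟩
    refine ⟨(ρ s⁻¹ * X * ρ s) u, ?_, ?_⟩
    · have h1 := hconj s⁻¹ X hX
      rw [inv_inv] at h1
      exact smul_mem_A 𝔥 S h1 hu
    · have h2 : ρ s * (ρ s⁻¹ * X * ρ s) = X * ρ s := by
        rw [← mul_assoc, ← mul_assoc, ← map_mul, mul_inv_cancel, map_one, one_mul]
      exact congrArg (fun f : Module.End k V => f u) h2)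

theorem mem_img (s : Γ) (S : Submodule (AA 𝔥) V) (u : V) :
    u ∈ img ρ 𝔥 hconj s S ↔ ρ s⁻¹ u ∈ S := by
  constructor
  · rintro ⟨w, hw, rfl⟩
    have h : ρ s⁻¹ (ρ s w) = w := by
      rw [← Module.End.mul_apply, ← map_mul, inv_mul_cancel, map_one, Module.End.one_apply]
    rw [h]
    exact hw
  · intro h
    refine ⟨ρ s⁻¹ u, h, ?_⟩
    rw [← Module.End.mul_apply, ← map_mul, mul_inv_cancel, map_one, Module.End.one_apply]

/-- The group acts on the lattice of submodules. -/
def imgIso (s : Γ) : Submodule (AA 𝔥) V ≃o Submodule (AA 𝔥) V where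
  toFun := img ρ 𝔥 hconj s
  invFun := img ρ 𝔥 hconj s⁻¹
  left_inv S := by
    ext u
    rw [mem_img, mem_img, inv_inv, ← Module.End.mul_apply, ← map_mul, inv_mul_cancel, map_one,
      Module.End.one_apply]
  right_inv S := by
    ext u
    rw [mem_img, mem_img, inv_inv, ← Module.End.mul_apply, ← map_mul, mul_inv_cancel, map_one,
      Module.End.one_apply]
  map_rel_iff' := by
    intro S S'
    constructor
    · intro h u hu
      have h1 : ρ s u ∈ img ρ 𝔥 hconj s S := by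
        rw [mem_img, ← Module.End.mul_apply, ← map_mul, inv_mul_cancel, map_one,
          Module.End.one_apply]
        exact hu
      have h2 := h h1
      change ρ s u ∈ img ρ 𝔥 hconj s S' at h2
      rwa [mem_img, ← Module.End.mul_apply, ← map_mul, inv_mul_cancel, map_one,
          Module.End.one_apply] at h2
    · intro h u hu
      change u ∈ img ρ 𝔥 hconj s S at hu
      change u ∈ img ρ 𝔥 hconj s S'
      rw [mem_img] at hu ⊢
      exact h hu

include hconj in
/-- The Lie algebra acts semisimply. -/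
theorem semi [FiniteDimensional k V]
    (hss : ∀ U : Submodule k V, (∀ s, ∀ u ∈ U, ρ s u ∈ U) →
      ∃ U' : Submodule k V, (∀ s, ∀ u ∈ U', ρ s u ∈ U') ∧ IsCompl U U')
    (hcomm : ∀ P : Module.End k V, (∀ s, P * ρ s = ρ s * P) → ∀ X ∈ 𝔥, X * P = P * X)
    (U : Submodule k V) (hU : ∀ X ∈ 𝔥, ∀ u ∈ U, X u ∈ U) :
    ∃ U' : Submodule k V, (∀ X ∈ 𝔥, ∀ u ∈ U', X u ∈ U') ∧ IsCompl U U' := by
  classical
  let S : Submodule (AA 𝔥) V := sSup {m : Submodule (AA 𝔥) V | IsAtom m}
  have hS : ∀ s, img ρ 𝔥 hconj s S = S := by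
    intro s
    have h1 : imgIso ρ 𝔥 hconj s S = S := by
      change imgIso ρ 𝔥 hconj s (sSup _) = sSup _
      rw [OrderIso.map_sSup]
      apply le_antisymm
      · refine iSup₂_le fun m hm => le_sSup ?_
        exact (OrderIso.isAtom_iff (imgIso ρ 𝔥 hconj s) m).2 hm
      · refine sSup_le fun m hm => ?_
        have h2 : IsAtom ((imgIso ρ 𝔥 hconj s).symm m) :=
          (OrderIso.isAtom_iff (imgIso ρ 𝔥 hconj s).symm m).2 hm
        have h3 : m = imgIso ρ 𝔥 hconj s ((imgIso ρ 𝔥 hconj s).symm m) :=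
          ((imgIso ρ 𝔥 hconj s).apply_symm_apply m).symm
        rw [h3]
        exact le_iSup₂ (f := fun a (_ : a ∈ {m : Submodule (AA 𝔥) V | IsAtom m}) =>
          imgIso ρ 𝔥 hconj s a) _ h2
    exact h1
  have hSρ : ∀ s, ∀ u ∈ ofA 𝔥 S, ρ s u ∈ ofA 𝔥 S := by
    intro s u hu
    have h1 : ρ s u ∈ img ρ 𝔥 hconj s S := by
      rw [mem_img, ← Module.End.mul_apply, ← map_mul, inv_mul_cancel, map_one,
        Module.End.one_apply]
      exact hu
    rw [hS] at h1
    exact h1
  obtain ⟨U₁, hU₁, hcompl⟩ := hss (ofA 𝔥 S) hSρ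
  -- the projection to `U₁`
  let e : Module.End k V := Submodule.projection U₁ (ofA 𝔥 S) hcompl.symm
  have he1 : ∀ u ∈ U₁, e u = u := fun u hu =>
    Submodule.projection_apply_left hcompl.symm ⟨u, hu⟩
  have he2 : ∀ u ∈ ofA 𝔥 S, e u = 0 := fun u hu =>
    (Submodule.projection_apply_eq_zero_iff hcompl.symm).2 hu
  have he3 : ∀ u, e u ∈ U₁ := fun u => Submodule.projection_apply_mem hcompl.symm u
  have hdec : ∀ u : V, ∃ a ∈ ofA 𝔥 S, ∃ b ∈ U₁, a + b = u := by
    intro u
    have h1 : u ∈ ofA 𝔥 S ⊔ U₁ := by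
      rw [hcompl.sup_eq_top]
      trivial
    exact Submodule.mem_sup.1 h1
  have hec : ∀ s, e * ρ s = ρ s * e := by
    intro s
    refine LinearMap.ext fun u => ?_
    obtain ⟨a, ha, b, hb, rfl⟩ := hdec u
    rw [Module.End.mul_apply, Module.End.mul_apply, map_add, map_add, map_add, map_add,
      he2 _ (hSρ s a ha), he1 _ (hU₁ s b hb), he2 a ha, he1 b hb, map_zero]
  have hex := hcomm e hec
  have hU₁A : ∀ X ∈ 𝔥, ∀ u ∈ U₁, X u ∈ U₁ := by
    intro X hX u hu
    have h1 := congrArg (fun f : Module.End k V => f u) (hex X hX)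
    simp only [Module.End.mul_apply] at h1
    rw [he1 u hu] at h1
    rw [h1]
    exact he3 _
  have hbot : toA 𝔥 U₁ hU₁A = ⊥ := by
    have hart : IsArtinian (AA 𝔥) V := isArtinian_of_tower k inferInstance
    have hat : IsAtomic (Submodule (AA 𝔥) V) := inferInstance
    rcases hat.eq_bot_or_exists_atom_le (toA 𝔥 U₁ hU₁A) with h | ⟨m, hm, hle⟩
    · exact h
    · exfalso
      apply hm.1
      rw [eq_bot_iff]
      intro u hu
      have h1 : u ∈ ofA 𝔥 S := (le_sSup hm : m ≤ S) hu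
      have h2 : u ∈ U₁ := hle hu
      have h3 : u ∈ ofA 𝔥 S ⊓ U₁ := ⟨h1, h2⟩
      rw [hcompl.inf_eq_bot] at h3
      exact h3
  have htop : S = ⊤ := by
    have h1 : U₁ = ⊥ := by
      rw [eq_bot_iff]
      intro u hu
      have h2 : u ∈ toA 𝔥 U₁ hU₁A := hu
      rw [hbot] at h2
      exact h2
    rw [eq_top_iff]
    intro u _
    have h2 : u ∈ ofA 𝔥 S ⊔ U₁ := by
      rw [hcompl.sup_eq_top]
      trivial
    rw [h1, sup_bot_eq] at h2
    exact h2
  have hcl : ComplementedLattice (Submodule (AA 𝔥) V) :=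
    complementedLattice_of_sSup_atoms_eq_top htop
  obtain ⟨S', hS'⟩ := hcl.exists_isCompl (toA 𝔥 U hU)
  refine ⟨ofA 𝔥 S', fun X hX u hu => smul_mem_A 𝔥 S' hX hu, ?_⟩
  constructor
  · rw [disjoint_iff, eq_bot_iff]
    rintro u ⟨h1, h2⟩
    have h3 : u ∈ toA 𝔥 U hU ⊓ S' := ⟨h1, h2⟩
    rw [hS'.inf_eq_bot] at h3
    exact h3
  · rw [codisjoint_iff, eq_top_iff]
    intro u _
    have h3 : u ∈ toA 𝔥 U hU ⊔ S' := by
      rw [hS'.sup_eq_top]
      trivial
    obtain ⟨a, ha, b, hb, rfl⟩ := Submodule.mem_sup.1 h3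
    exact Submodule.add_mem_sup ha hb

end semi

end Pool.Agent.U188.MTQ
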