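import Mathlib
import Pool.Agent.W516.MT.Main2
import Pool.Agent.U188.MTQ.Com
import Pool.Agent.U188.MTQ.Ros
import Pool.Agent.U188.MTQ.Sem

/-!
# One quartic Tate class decides the Mumford-Tate conjecture
-/

set_option autoImplicit false
set_option linter.unusedSectionVars false

namespace Pool.Agent.U188.MTQ

open Module TensorProduct Pool.Agent.H204R3.SP Pool.Agent.H204R3.GP Pool.Agent.W516.KC
  Pool.Agent.W516.MTD Pool.Agent.W516.MTM Pool.Agent.W516.DR Pool.Agent.W516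

section alg

variable {k : Type} [Field k] [CharZero k] {W T : Type} [AddCommGroup W] [Module ℚ W]
  [FiniteDimensional ℚ W] [AddCommGroup T] [Module ℂ T] (per : W →+ T)
  {Γ : Type} [Group Γ] (ρ : Representation k Γ (k ⊗[ℚ] W)) (χ : Γ →* k)
  (ω₀ : W →ₗ[ℚ] W →ₗ[ℚ] ℚ) (ω : k ⊗[ℚ] W →ₗ[k] k ⊗[ℚ] W →ₗ[k] k)
  (hper : MTD.IsRationalStructure per) (hR : IsRiemannForm per ω₀)
  (hωω : ∀ u v : W, ω ((1 : k) ⊗ₜ[ℚ] u) ((1 : k) ⊗ₜ[ℚ] v) = algebraMap ℚ k (ω₀ u v))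
  (hωρ : ∀ s u v, ω (ρ s u) (ρ s v) = χ s * ω u v)
  (hD : Deligne per ρ χ)
variable (hC : Centres per ρ χ)
  (hcomm : ∀ P : Module.End k (k ⊗[ℚ] W), (∀ X ∈ lieT ρ χ, X * P = P * X) → P ∈ endos k per)
  (hsemi : Semi (lieT ρ χ)) (hros : MTS.S_ROS)

include hper hR hωω hωρ hD hC hcomm hsemi hros in
/-- One quartic Tate class decides the Mumford-Tate conjecture. -/
theorem exists_quartic' :
    ∃ Θ : MultilinearMap k (fun _ : Fin 2 × Fin 2 => k ⊗[ℚ] W) k,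
      (∀ s v, Θ (fun l => ρ s (v l)) = χ s ^ 2 * Θ v) ∧
      (∀ Z : Module.End k (k ⊗[ℚ] W), (∀ u v, ω (Z u) v + ω u (Z v) = 0) →
        (∀ P ∈ endos k per, Z * P = P * Z) → Kills Z Θ →
        ∃ C ∈ endos k per, (∀ P ∈ endos k per, C * P = P * C) ∧ Z - C ∈ lieT ρ χ) ∧
      (MTD.IsHodgeCombination per Θ → ∀ (m : ℕ)
        (φ : MultilinearMap k (fun _ : Fin m × Fin 2 => k ⊗[ℚ] W) k),
        IsTateTensor ρ χ m φ → MTD.IsHodgeCombination per φ) := by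
  have hnd₀ := riemann_nondeg per ω₀ hper hR
  have hnd := nondeg_ext ω₀ ω hωω hnd₀
  have hRH := riemann_hodge per ω₀ hR
  have hnt := lieT_trace per ρ χ ω₀ ω hper hR hωω hωρ hD hC hcomm hsemi hros
  refine ⟨KC2.casimir (lieT ρ χ) hnt ω, fun s v => ?_, ?_, fun hΘ => ?_⟩
  · refine KC2.casimir_inv (lieT ρ χ) hnt ω (g := ρ s) (g' := ρ s⁻¹) ?_ ?_ (hωρ s) ?_ ?_ v
    · rw [← map_mul, inv_mul_cancel, map_one]
    · rw [← map_mul, mul_inv_cancel, map_one]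
    · intro X hX
      exact lieT_conj ρ χ s hX
    · intro X hX
      have h1 := lieT_conj ρ χ s⁻¹ hX
      rwa [inv_inv] at h1
  · intro Z hZs hZc hZk
    obtain ⟨Y, hY, hYc⟩ := KC2.mem_of_kills_casimir (lieT ρ χ) hnt ω
      (fun X hX Y hY => lieT_bracket ρ χ hX hY) hnd hZs hZk
    refine ⟨Z - Y, hcomm _ hYc, fun P hP => ?_, ?_⟩
    · have e1 := hZc P hP
      have e2 := lieT_comm per ρ χ ω₀ ω hper hR hωω hωρ hD hY hP
      refine LinearMap.ext fun z => ?_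
      have e3 := congrArg (fun f : Module.End k (k ⊗[ℚ] W) => f z) e1
      have e4 := congrArg (fun f : Module.End k (k ⊗[ℚ] W) => f z) e2
      simp only [Module.End.mul_apply] at e3 e4
      rw [Module.End.mul_apply, Module.End.mul_apply, LinearMap.sub_apply, LinearMap.sub_apply,
        map_sub, e3, e4]
    · have e1 : Z - (Z - Y) = Y := by
        refine LinearMap.ext fun z => ?_
        rw [LinearMap.sub_apply, LinearMap.sub_apply]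
        abel
      rw [e1]
      exact hY
  · intro m φ hφ
    -- the endomorphisms that kill the Hodge classes are in the Lie algebra
    have hmem : ∀ Z₀ : Module.End ℚ W, (∀ (m' : ℕ)
        (ψ : MultilinearMap ℚ (fun _ : Fin m' × Fin 2 => W) ℚ), IsHodgeTensor per ψ →
          Kills Z₀ ψ) → Z₀.baseChange k ∈ lieT ρ χ := by
      intro Z₀ hk
      have hZs : IsSkew ω (Z₀.baseChange k) :=
        skew_ext ω₀ ω hωω ((kills_one2 ω₀ Z₀).1 (hk 1 _ (one2_hodge per ω₀ hRH)))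
      have hZk : Kills (Z₀.baseChange k) (KC2.casimir (lieT ρ χ) hnt ω) :=
        kills_span (fun ψ => IsHodgeTensor per ψ) Z₀ (hk 2) _ ((hc_iff per _).1 hΘ)
      obtain ⟨Y, hY, hYc⟩ := KC2.mem_of_kills_casimir (lieT ρ χ) hnt ω
        (fun X hX Y hY => lieT_bracket ρ χ hX hY) hnd hZs hZk
      have h1 : Z₀.baseChange k - Y ∈ lieT ρ χ := by
        refine hC _ (hcomm _ hYc) (fun P hP => ?_) (fun m φ hφ => ?_)
        · have e1 := comm_endos per ω₀ hper hR Z₀ hk hP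
          have e2 := lieT_comm per ρ χ ω₀ ω hper hR hωω hωρ hD hY hP
          refine LinearMap.ext fun z => ?_
          have e3 := congrArg (fun f : Module.End k (k ⊗[ℚ] W) => f z) e1
          have e4 := congrArg (fun f : Module.End k (k ⊗[ℚ] W) => f z) e2
          simp only [Module.End.mul_apply] at e3 e4
          rw [Module.End.mul_apply, Module.End.mul_apply, LinearMap.sub_apply, LinearMap.sub_apply,
            map_sub, e3, e4]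
        · have h2 := kills_span (fun ψ => IsHodgeTensor per ψ) Z₀ (hk m) φ ((hc_iff per φ).1 hφ)
          have h3 := lieT_hc per ρ χ hD hY φ hφ
          intro v
          have h4 : ∀ j, φ (Function.update v j ((Z₀.baseChange k - Y) (v j))) =
              φ (Function.update v j (Z₀.baseChange k (v j))) -
                φ (Function.update v j (Y (v j))) := by
            intro j
            rw [LinearMap.sub_apply, MultilinearMap.map_update_sub]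
          rw [Finset.sum_congr rfl (fun j _ => h4 j), Finset.sum_sub_distrib, h2 v, h3 v, sub_zero]
      have h2 : Z₀.baseChange k = (Z₀.baseChange k - Y) + Y := by abel
      rw [h2]
      exact Submodule.add_mem _ h1 hY
    rw [hc_iff]
    refine form_mem_span (fun ψ => IsHodgeTensor per ψ) φ fun lam => ?_
    refine hodge_of_kills per hper _ fun Z₀ hk => ?_
    exact kills_fcmp lam φ Z₀ (hmem Z₀ hk m φ hφ)


end alg

section main

variable {ℓ : ℕ} [Fact ℓ.Prime] {W T : Type} [AddCommGroup W] [Module ℚ W]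
  [FiniteDimensional ℚ W] [AddCommGroup T] [Module ℂ T] (per : W →+ T)
  {Γ : Type} [Group Γ] [TopologicalSpace Γ] [IsTopologicalGroup Γ] [CompactSpace Γ]
  (ρ : Representation ℚ_[ℓ] Γ (ℚ_[ℓ] ⊗[ℚ] W)) (χ : Γ →* ℚ_[ℓ])
  (ω₀ : W →ₗ[ℚ] W →ₗ[ℚ] ℚ) (ω : ℚ_[ℓ] ⊗[ℚ] W →ₗ[ℚ_[ℓ]] ℚ_[ℓ] ⊗[ℚ] W →ₗ[ℚ_[ℓ]] ℚ_[ℓ])

/-- **One quartic Tate class decides the Mumford-Tate conjecture.** -/
theorem quartic (hper : MTD.IsRationalStructure per) (hR : IsRiemannForm per ω₀)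
    (hωω : ∀ u v : W, ω ((1 : ℚ_[ℓ]) ⊗ₜ[ℚ] u) ((1 : ℚ_[ℓ]) ⊗ₜ[ℚ] v) = ((ω₀ u v : ℚ) : ℚ_[ℓ]))
    (hωρ : ∀ s u v, ω (ρ s u) (ρ s v) = χ s * ω u v)
    (hρ : ∀ (f : ℚ_[ℓ] ⊗[ℚ] W →ₗ[ℚ_[ℓ]] ℚ_[ℓ]) (v : ℚ_[ℓ] ⊗[ℚ] W), Continuous fun s => f (ρ s v))
    (hχ : Continuous χ) (hss : Semisimple ρ) (hF : Faltings per ρ) (hD : Deligne per ρ χ)
    (hC : Centres per ρ χ) :
    ∃ Θ : MultilinearMap ℚ_[ℓ] (fun _ : Fin 2 × Fin 2 => ℚ_[ℓ] ⊗[ℚ] W) ℚ_[ℓ],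
      (∀ s v, Θ (fun l => ρ s (v l)) = χ s ^ 2 * Θ v) ∧
      (∀ Z : Module.End ℚ_[ℓ] (ℚ_[ℓ] ⊗[ℚ] W), (∀ u v, ω (Z u) v + ω u (Z v) = 0) →
        (∀ P ∈ endos ℚ_[ℓ] per, Z * P = P * Z) → Kills Z Θ →
        ∃ C ∈ endos ℚ_[ℓ] per, (∀ P ∈ endos ℚ_[ℓ] per, C * P = P * C) ∧ Z - C ∈ lieT ρ χ) ∧
      (MTD.IsHodgeCombination per Θ → ∀ (m : ℕ)
        (φ : MultilinearMap ℚ_[ℓ] (fun _ : Fin m × Fin 2 => ℚ_[ℓ] ⊗[ℚ] W) ℚ_[ℓ]),
        IsTateTensor ρ χ m φ → MTD.IsHodgeCombination per φ) := by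
  have hωω' : ∀ u v : W, ω ((1 : ℚ_[ℓ]) ⊗ₜ[ℚ] u) ((1 : ℚ_[ℓ]) ⊗ₜ[ℚ] v) =
      algebraMap ℚ ℚ_[ℓ] (ω₀ u v) := fun u v => by rw [hωω, eq_ratCast]
  have hcomm : ∀ P : Module.End ℚ_[ℓ] (ℚ_[ℓ] ⊗[ℚ] W), (∀ X ∈ lieT ρ χ, X * P = P * X) →
      P ∈ endos ℚ_[ℓ] per := by
    intro P hP
    obtain ⟨Δ, h1, h2⟩ := comm_of_lieT ρ χ hρ hχ
    exact hF P ⟨Δ, h1, h2 P hP⟩
  have hsemi : Semi (lieT ρ χ) := by
    intro U hU
    refine semi ρ (lieT ρ χ) (fun s X hX => lieT_conj ρ χ s hX) hss (fun P hP X hX => ?_) U hU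
    have h1 : P ∈ endos ℚ_[ℓ] per := hF P ⟨⊤, inferInstance, fun s _ v =>
      congrArg (fun f : Module.End ℚ_[ℓ] (ℚ_[ℓ] ⊗[ℚ] W) => f v) (hP s)⟩
    exact lieT_comm per ρ χ ω₀ ω hper hR hωω' hωρ hD hX h1
  exact exists_quartic' per ρ χ ω₀ ω hper hR hωω' hωρ hD hC hcomm hsemi ros

end main

end Pool.Agent.U188.MTQ
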